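import Pool.Agent.W819.NC.Stm

/-!
Project NC: doubling of the radii of the generating functions of annuli for `t ≤ 1`
(`t_DIN` and `t_DOUT`).
-/

set_option autoImplicit false

namespace Pool.Agent.W509.NC

open H974 Finset Pool.Agent.W819.EN Pool.Agent.W819.NC

lemma hok : Ok P2 := okq (q := (1 / 2 : ℝ)) (by norm_num) (by norm_num)

lemma bx_mono (v : Vtx) {k l : ℤ} (h : k ≤ l) : bx v k ⊆ bx v l := by
  unfold bx
  exact RE_subset (by omega) (by omega) (by omega) (by omega)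

lemma loc' {N : NT} (hG : Geo N) {v : Vtx} {r R : ℕ} (h : r ≤ R)
    {S : Finset Edg} (hS : an v r R ⊆ S) (F : Finset Edg) : N F v r R = N (F ∩ S) v r R := by
  rw [hG.loc F v r R h, hG.loc (F ∩ S) v r R h]
  congr 1
  ext x
  simp only [Finset.mem_inter]
  constructor
  · rintro ⟨h1, h2⟩
    exact ⟨⟨h1, hS h2⟩, h2⟩
  · rintro ⟨⟨h1, -⟩, h2⟩
    exact ⟨h1, h2⟩

lemma wloc' {N : NT} {W : WT} {K : KT} (hG : Sys N W K) {v : Vtx} {b : ℕ} (h : 1 ≤ b)
    {S : Finset Edg} (hS : an v b (2 * b) ⊆ S) (F : Finset Edg) : W F v b = W (F ∩ S) v b := by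
  rw [hG.wloc F v b h, hG.wloc (F ∩ S) v b h]
  congr 1
  ext x
  simp only [Finset.mem_inter]
  constructor
  · rintro ⟨h1, h2⟩
    exact ⟨⟨h1, hS h2⟩, h2⟩
  · rintro ⟨⟨h1, -⟩, h2⟩
    exact ⟨h1, h2⟩

lemma G_nonneg (N : NT) {t : ℝ} (h0 : 0 < t) (r R : ℕ) : 0 ≤ G N t r R :=
  Ex_nonneg hok fun _ _ => by positivity

lemma G_le_one (N : NT) {t : ℝ} (h0 : 0 < t) (h1 : t ≤ 1) (r R : ℕ) : G N t r R ≤ 1 :=
  Ex_le_of_le hok fun F _ => pow_le_one₀ h0.le h1

lemma G_le {N : NT} (h : Geo N) (hl : LocG N) {t : ℝ} (h0 : 0 < t) (h1 : t ≤ 1)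
    {r r' R R' : ℕ} (hrR : r ≤ R) (hr : r' ≤ r) (hR : R ≤ R') :
    G N t r' R' ≤ G N t r R := by
  have e1 : bx (0, 0) R ⊆ bx (0, 0) R' := bx_mono _ (by exact_mod_cast hR)
  rw [← hl t (0, 0) r R (bx (0, 0) R') hrR e1,
    ← hl t (0, 0) r' R' (bx (0, 0) R') (by omega) (Finset.Subset.refl _)]
  exact Ex_mono hok fun F _ => pow_le_pow_of_le_one h0.le h1 (h.mono F _ _ _ _ _ hr hR)

lemma low {N : NT} (h : Geo N) (ha : AMom N) {t : ℝ} (h0 : 0 < t) (h1 : t ≤ 1) (L : ℕ) :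
    ∃ D : ℝ, 0 < D ∧ ∀ r R : ℕ, r ≤ R → R ≤ L * max r 1 → 1 ≤ D * G N t r R := by
  obtain ⟨C, hC, hC'⟩ := ha (1 / t) (by rw [le_div_iff₀ h0]; linarith) L
  refine ⟨C + (t ^ (2 * L))⁻¹, by positivity, fun r R hrR hR => ?_⟩
  have hG0 := G_nonneg N h0 r R
  rcases Nat.eq_zero_or_pos r with h2 | h2
  · subst h2
    have hR' : R ≤ L := by simpa using hR
    have e1 : t ^ (2 * L) ≤ G N t 0 R := by
      have := Ex_mono hok (S := bx (0, 0) R) (f := fun _ => t ^ (2 * L))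
        (g := fun F => t ^ N F (0, 0) 0 R) (fun F _ =>
          pow_le_pow_of_le_one h0.le h1 ((h.le F (0, 0) 0 R).trans (by omega)))
      rwa [Ex_const] at this
    have e2 : (t ^ (2 * L))⁻¹ * t ^ (2 * L) = 1 := inv_mul_cancel₀ (by positivity)
    have e3 : (t ^ (2 * L))⁻¹ * t ^ (2 * L) ≤ (t ^ (2 * L))⁻¹ * G N t 0 R :=
      mul_le_mul_of_nonneg_left e1 (by positivity)
    nlinarith [mul_nonneg hC.le hG0]
  · have hR' : R ≤ L * r := by
      rwa [max_eq_left h2] at hR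
    have e1 := hC' (0, 0) r R (bx (0, 0) R) h2 hrR hR' (Finset.Subset.refl _)
    have e2 : Ex P2 (bx (0, 0) R) (fun _ => 2 * C) ≤
        Ex P2 (bx (0, 0) R) (fun F => C ^ 2 * t ^ N F (0, 0) r R +
          (1 / t) ^ N F (0, 0) r R) := by
      refine Ex_mono hok fun F _ => ?_
      have e3 : t ^ N F (0, 0) r R * (1 / t) ^ N F (0, 0) r R = 1 := by
        rw [← mul_pow, mul_one_div_cancel h0.ne', one_pow]
      have e4 : 0 < t ^ N F (0, 0) r R := by positivity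
      have e5 : 0 < (1 / t) ^ N F (0, 0) r R := by positivity
      nlinarith [sq_nonneg (C * t ^ N F (0, 0) r R - 1), sq_nonneg (C * t ^ N F (0, 0) r R
        - (1 / t) ^ N F (0, 0) r R * t ^ N F (0, 0) r R),
        mul_nonneg e5.le (sq_nonneg (C * t ^ N F (0, 0) r R - 1))]
    rw [Ex_const, Ex_add, Ex_mul_left] at e2
    have e3 : 2 * C ≤ C ^ 2 * G N t r R + C := e2.trans (by unfold G; linarith)
    have e4 : 1 ≤ C * G N t r R := by
      by_contra hcon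
      push Not at hcon
      nlinarith
    have e5 : 0 ≤ (t ^ (2 * L))⁻¹ * G N t r R := by positivity
    nlinarith

lemma tail {N : NT} {W : WT} {K : KT} (h : Sys N W K) (ha : AMom N) {u : ℝ} (hu : 1 ≤ u) :
    ∃ C : ℝ, 0 < C ∧ ∀ (x b R : ℕ) (S : Finset Edg), 1 ≤ x → x ≤ R → R ≤ 16 * x → 1 ≤ b →
      bx (0, 0) R ⊆ S → bx (0, 0) (2 * b) ⊆ S → ∀ k : ℕ,
      Pr P2 S (fun F => k < N F (0, 0) x R + W F (0, 0) b) ≤ C * (u⁻¹) ^ k := by
  have hu0 : 0 < u := by linarith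
  obtain ⟨C1, hC1, h1⟩ := ha (u ^ 2) (one_le_pow₀ hu) 16
  obtain ⟨C2, hC2, h2⟩ := h.wmom (u ^ 2) (one_le_pow₀ hu)
  refine ⟨C1 + C2, by positivity, fun x b R S hx hxR hR hb hS hS' k => ?_⟩
  have e1 := h1 (0, 0) x R S hx hxR hR hS
  have e2 := h2 (0, 0) b S hb hS'
  have e3 : Pr P2 S (fun F => k < N F (0, 0) x R + W F (0, 0) b) ≤
      Ex P2 S (fun F => (u⁻¹) ^ k * ((u ^ 2) ^ N F (0, 0) x R + (u ^ 2) ^ W F (0, 0) b)) := by
    refine Ex_mono hok fun F _ => ?_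
    have e4 : 0 < (u⁻¹) ^ k := by positivity
    by_cases hk : k < N F (0, 0) x R + W F (0, 0) b
    · rw [ind_of hk]
      have e5 : (1 : ℝ) ≤ (u⁻¹) ^ k * (u ^ N F (0, 0) x R * u ^ W F (0, 0) b) := by
        rw [← pow_add]
        have e6 : (u⁻¹) ^ k * u ^ k = 1 := by
          rw [← mul_pow, inv_mul_cancel₀ hu0.ne', one_pow]
        rw [← e6]
        exact mul_le_mul_of_nonneg_left (pow_le_pow_right₀ hu hk.le) e4.le
      refine e5.trans (mul_le_mul_of_nonneg_left ?_ e4.le)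
      rw [← pow_mul, ← pow_mul, mul_comm 2, mul_comm 2, pow_mul, pow_mul]
      nlinarith [sq_nonneg (u ^ N F (0, 0) x R - u ^ W F (0, 0) b),
        sq_nonneg (u ^ N F (0, 0) x R), sq_nonneg (u ^ W F (0, 0) b)]
    · rw [ind_not_of hk]
      positivity
  refine e3.trans ?_
  rw [Ex_mul_left, Ex_add, mul_comm]
  exact mul_le_mul_of_nonneg_right (by linarith) (by positivity)

lemma core {t : ℝ} (h0 : 0 < t) (h1 : t ≤ 1) {S : Finset Edg} {Z X Y : Finset Edg → ℝ}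
    {V : Finset Edg → ℕ} (k : ℕ) (hX : ∀ F, 0 ≤ X F) (hXY : ∀ F, X F ≤ Y F)
    (hZ : ∀ F, t ^ V F * X F ≤ Z F)
    (hi : Ex P2 S (fun F => Y F * ind (k < V F)) = Ex P2 S Y * Pr P2 S (fun F => k < V F)) :
    t ^ k * (Ex P2 S X - Ex P2 S Y * Pr P2 S (fun F => k < V F)) ≤ Ex P2 S Z := by
  rw [← hi, ← Ex_sub, ← Ex_mul_left]
  refine Ex_mono hok fun F _ => le_trans ?_ (hZ F)
  have e1 : 0 < t ^ k := by positivity
  by_cases hk : k < V F
  · rw [ind_of hk, mul_one]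
    have e2 : t ^ k * (X F - Y F) ≤ 0 := by
      have := hXY F
      nlinarith
    have e3 : 0 ≤ t ^ V F * X F := mul_nonneg (by positivity) (hX F)
    linarith
  · rw [ind_not_of hk, mul_zero, sub_zero]
    push Not at hk
    exact mul_le_mul_of_nonneg_right (pow_le_pow_of_le_one h0.le h1 hk) (hX F)

/-- choice of the constants -/
lemma consts {t C D : ℝ} (h0 : 0 < t) (h1 : t ≤ 1) (hC : 0 < C) (hD : 0 < D) :
    ∃ (k : ℕ) (A : ℝ), 0 < A ∧ D ≤ A ∧ 2 * (t ^ k)⁻¹ ≤ A ∧ A * (C * ((2 / t)⁻¹) ^ k) ≤ 1 / 2 := by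
  obtain ⟨k, hk⟩ := pow_unbounded_of_one_lt (2 * (2 + D) * C) (by norm_num : (1 : ℝ) < 2)
  refine ⟨k, 2 * (t ^ k)⁻¹ + D, by positivity, ?_, by linarith, ?_⟩
  · have : 0 < (t ^ k)⁻¹ := by positivity
    linarith
  · have e1 : ((2 / t)⁻¹) ^ k = t ^ k * ((2 : ℝ) ^ k)⁻¹ := by
      rw [inv_div, div_pow, div_eq_mul_inv]
    have e2 : (t ^ k)⁻¹ * t ^ k = 1 := inv_mul_cancel₀ (by positivity)
    have e3 : t ^ k ≤ 1 := pow_le_one₀ h0.le h1
    have e4 : 0 < t ^ k := by positivity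
    rw [e1]
    have e5 : (2 * (t ^ k)⁻¹ + D) * (C * (t ^ k * ((2 : ℝ) ^ k)⁻¹)) =
        (2 * ((t ^ k)⁻¹ * t ^ k) + D * t ^ k) * C * ((2 : ℝ) ^ k)⁻¹ := by ring
    rw [e5, e2, ← div_eq_mul_inv, div_le_iff₀ (by positivity)]
    have e6 : (2 * 1 + D * t ^ k) * C ≤ (2 + D) * C := by
      apply mul_le_mul_of_nonneg_right _ hC.le
      nlinarith
    nlinarith

lemma fin {t A e g1 g2 g : ℝ} {k : ℕ} (h0 : 0 < t) (hA2 : 2 * (t ^ k)⁻¹ ≤ A)
    (hAe : A * e ≤ 1 / 2) (he : 0 ≤ e) (hg1 : 0 ≤ g1) (h12 : g2 ≤ A * g1) (hg : 0 ≤ g)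
    (hc : t ^ k * (g1 - g2 * e) ≤ g) : g1 ≤ A * g := by
  have e1 : g2 * e ≤ g1 / 2 := by
    have := mul_le_mul_of_nonneg_right h12 he
    nlinarith
  have e2 : 0 < t ^ k := by positivity
  have e3 : t ^ k * (g1 / 2) ≤ g := le_trans (mul_le_mul_of_nonneg_left (by linarith) e2.le) hc
  have e4 : (t ^ k)⁻¹ * t ^ k = 1 := inv_mul_cancel₀ e2.ne'
  have e5 : g1 = 2 * (t ^ k)⁻¹ * (t ^ k * (g1 / 2)) := by
    have : 2 * (t ^ k)⁻¹ * (t ^ k * (g1 / 2)) = ((t ^ k)⁻¹ * t ^ k) * g1 := by ring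
    rw [this, e4, one_mul]
  rw [e5]
  have e6 : 0 < 2 * (t ^ k)⁻¹ := by positivity
  calc 2 * (t ^ k)⁻¹ * (t ^ k * (g1 / 2)) ≤ 2 * (t ^ k)⁻¹ * g := by gcongr
    _ ≤ A * g := by gcongr

theorem din_step {N : NT} {W : WT} {K : KT} (h : Sys N W K) (hl : LocG N) (ha : AMom N)
    {t : ℝ} (h0 : 0 < t) (h1 : t ≤ 1) :
    ∃ A : ℝ, 0 < A ∧ ∀ r c : ℕ, max r 1 ≤ c → G N t r (2 * c) ≤ A * G N t r (16 * c) := by
  obtain ⟨D, hD, hD'⟩ := low h.geo ha h0 h1 64
  have hu : 1 ≤ 2 / t := by rw [le_div_iff₀ h0]; linarith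
  obtain ⟨C, hC, hC'⟩ := tail h ha hu
  obtain ⟨k, A, hA, hDA, hA2, hAe⟩ := consts h0 h1 hC hD
  refine ⟨A, hA, fun r c => ?_⟩
  induction c using Nat.strong_induction_on with
  | _ c ih =>
  intro hc
  have hc1 : 1 ≤ c := (le_max_right _ _).trans hc
  have hrc : r ≤ c := (le_max_left _ _).trans hc
  by_cases hc4 : max r 1 ≤ c / 4
  · have hd1 : 1 ≤ c / 4 := (le_max_right _ _).trans hc4
    have hrd : r ≤ c / 4 := (le_max_left _ _).trans hc4
    have i1 := ih (c / 4) (by omega) hc4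
    have i2 : G N t r (16 * (c / 4)) ≤ G N t r (2 * c) :=
      G_le h.geo hl h0 h1 (by omega) le_rfl (by omega)
    have i3 : G N t r (2 * (c / 4)) ≤ A * G N t r (2 * c) :=
      i1.trans (mul_le_mul_of_nonneg_left i2 hA.le)
    have hb1 : bx (0, 0) ((2 * c : ℕ) : ℤ) ⊆ bx (0, 0) ((16 * c : ℕ) : ℤ) :=
      bx_mono _ (by push_cast; omega)
    have hb2 : bx (0, 0) ((2 * (c / 4) : ℕ) : ℤ) ⊆ bx (0, 0) ((16 * c : ℕ) : ℤ) :=
      bx_mono _ (by push_cast; omega)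
    have hT : an (0, 0) c (16 * c) ⊆ bx (0, 0) ((16 * c : ℕ) : ℤ) := sdiff_subset
    have hT2 : an (0, 0) c (2 * c) ⊆ an (0, 0) c (16 * c) :=
      Finset.sdiff_subset_sdiff hb1 (Finset.Subset.refl _)
    have hd : Disjoint (bx (0, 0) ((2 * (c / 4) : ℕ) : ℤ)) (an (0, 0) c (16 * c)) := by
      rw [Finset.disjoint_left]
      intro x hx hx'
      unfold an at hx'
      rw [Finset.mem_sdiff] at hx'
      exact hx'.2 (bx_mono _ (by push_cast; omega) hx)
    have hi : Ex P2 (bx (0, 0) ((16 * c : ℕ) : ℤ)) (fun F => t ^ N F (0, 0) r (2 * (c / 4)) *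
        ind (k < N F (0, 0) c (16 * c) + W F (0, 0) c)) =
        Ex P2 (bx (0, 0) ((16 * c : ℕ) : ℤ)) (fun F => t ^ N F (0, 0) r (2 * (c / 4))) *
        Pr P2 (bx (0, 0) ((16 * c : ℕ) : ℤ))
          (fun F => k < N F (0, 0) c (16 * c) + W F (0, 0) c) := by
      refine Ex_mul_indep (p := P2) hb2 hT hd (fun F _ => ?_) (fun F _ => ?_)
      · rw [loc' h.geo (by omega) (sdiff_subset) F]
      · rw [loc' h.geo (by omega) (Finset.Subset.refl _) F, wloc' h hc1 hT2 F]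
    have hcore := core h0 h1 (Z := fun F => t ^ N F (0, 0) r (16 * c))
      (X := fun F => t ^ N F (0, 0) r (2 * c)) (Y := fun F => t ^ N F (0, 0) r (2 * (c / 4)))
      (V := fun F => N F (0, 0) c (16 * c) + W F (0, 0) c) (S := bx (0, 0) ((16 * c : ℕ) : ℤ)) k
      (fun F => by positivity)
      (fun F => pow_le_pow_of_le_one h0.le h1 (h.geo.mono F _ _ _ _ _ le_rfl (by omega)))
      (fun F => by
        rw [← pow_add]
        refine pow_le_pow_of_le_one h0.le h1 ?_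
        have := h.join F (0, 0) c r (16 * c) hc1 hrc (by omega)
        omega) hi
    rw [hl t (0, 0) r (2 * c) _ (by omega) hb1, hl t (0, 0) r (2 * (c / 4)) _ (by omega) hb2,
      hl t (0, 0) r (16 * c) _ (by omega) (Finset.Subset.refl _)] at hcore
    have ht := hC' c c (16 * c) (bx (0, 0) ((16 * c : ℕ) : ℤ)) hc1 (by omega) le_rfl hc1
      (Finset.Subset.refl _) (bx_mono _ (by push_cast; omega)) k
    refine fin h0 hA2 ?_ (Pr_nonneg hok _ _) (G_nonneg N h0 _ _) i3 (G_nonneg N h0 _ _) hcore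
    exact (mul_le_mul_of_nonneg_left ht hA.le).trans hAe
  · push Not at hc4
    have e1 := hD' r (16 * c) (by omega) (by omega)
    have e2 := G_le_one N h0 h1 r (2 * c)
    have e3 := G_nonneg N h0 r (16 * c)
    have e4 : D * G N t r (16 * c) ≤ A * G N t r (16 * c) := mul_le_mul_of_nonneg_right hDA e3
    linarith

theorem t_DIN {N : NT} {W : WT} {K : KT} (h : Sys N W K) (hl : LocG N) (ha : AMom N) :
    DIn N := by
  intro t M h0 h1
  obtain ⟨A, hA, hA'⟩ := din_step h hl ha h0 h1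
  obtain ⟨D, hD, hD'⟩ := low h.geo ha h0 h1 (2 * M)
  refine ⟨A ^ M + D, by positivity, fun r R R' hrR hR1 hRR' hR' => ?_⟩
  have hg0 := G_nonneg N h0 r R'
  by_cases hc : 2 * max r 1 ≤ R
  · have hit : ∀ j : ℕ, G N t r R ≤ A ^ j * G N t r (4 ^ j * R) := by
      intro j
      induction j with
      | zero => simp
      | succ j ih =>
        have hj : 1 ≤ 4 ^ j := Nat.one_le_pow _ _ (by norm_num)
        have hjR : R ≤ 4 ^ j * R := Nat.le_mul_of_pos_left _ hj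
        have e0 : (4 : ℕ) ^ (j + 1) * R = 4 * (4 ^ j * R) := by ring
        set Q := 4 ^ j * R with hQ
        have e1 : G N t r Q ≤ G N t r (2 * (Q / 2)) :=
          G_le h.geo hl h0 h1 (by omega) le_rfl (by omega)
        have e2 := hA' r (Q / 2) (by omega)
        have e3 : G N t r (16 * (Q / 2)) ≤ G N t r (4 ^ (j + 1) * R) :=
          G_le h.geo hl h0 h1 (by omega) le_rfl (by omega)
        have e4 : G N t r Q ≤ A * G N t r (4 ^ (j + 1) * R) :=
          e1.trans (e2.trans (mul_le_mul_of_nonneg_left e3 hA.le))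
        calc G N t r R ≤ A ^ j * G N t r Q := ih
          _ ≤ A ^ j * (A * G N t r (4 ^ (j + 1) * R)) :=
            mul_le_mul_of_nonneg_left e4 (by positivity)
          _ = A ^ (j + 1) * G N t r (4 ^ (j + 1) * R) := by ring
    have e1 := hit M
    have hM : M ≤ 4 ^ M := (Nat.lt_pow_self (by norm_num)).le
    have e2 : G N t r (4 ^ M * R) ≤ G N t r R' :=
      G_le h.geo hl h0 h1 (by omega) le_rfl (hR'.trans (Nat.mul_le_mul_right _ hM))
    have e3 : A ^ M * G N t r (4 ^ M * R) ≤ A ^ M * G N t r R' :=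
      mul_le_mul_of_nonneg_left e2 (by positivity)
    nlinarith [mul_nonneg hD.le hg0]
  · push Not at hc
    have e1 := hD' r R' (by omega) (hR'.trans (by nlinarith))
    have e2 := G_le_one N h0 h1 r R
    have e3 : 0 ≤ A ^ M * G N t r R' := by positivity
    nlinarith

theorem dout_step {N : NT} {W : WT} {K : KT} (h : Sys N W K) (hl : LocG N) (ha : AMom N)
    {t : ℝ} (h0 : 0 < t) (h1 : t ≤ 1) :
    ∃ A : ℝ, 0 < A ∧ ∀ n x R : ℕ, R - x = n → 1 ≤ x → 4 * x ≤ R →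
      G N t (4 * x) R ≤ A * G N t x R := by
  obtain ⟨D, hD, hD'⟩ := low h.geo ha h0 h1 16
  have hu : 1 ≤ 2 / t := by rw [le_div_iff₀ h0]; linarith
  obtain ⟨C, hC, hC'⟩ := tail h ha hu
  obtain ⟨k, A, hA, hDA, hA2, hAe⟩ := consts h0 h1 hC hD
  refine ⟨A, hA, fun n => ?_⟩
  induction n using Nat.strong_induction_on with
  | _ n ih =>
  intro x R hn hx hxR
  by_cases hc : 16 * x ≤ R
  · have i3 := ih (R - 4 * x) (by omega) (4 * x) R rfl (by omega) (by omega)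
    rw [show 4 * (4 * x) = 16 * x by ring] at i3
    have hb1 : bx (0, 0) ((2 * (4 * x) : ℕ) : ℤ) ⊆ bx (0, 0) (R : ℤ) :=
      bx_mono _ (by push_cast; omega)
    have hT : an (0, 0) (16 * x) R ⊆ bx (0, 0) (R : ℤ) := sdiff_subset
    have hT2 : an (0, 0) x (2 * (4 * x)) ⊆ bx (0, 0) ((2 * (4 * x) : ℕ) : ℤ) := sdiff_subset
    have hT3 : an (0, 0) (4 * x) (2 * (4 * x)) ⊆ bx (0, 0) ((2 * (4 * x) : ℕ) : ℤ) :=
      sdiff_subset
    have hd : Disjoint (an (0, 0) (16 * x) R) (bx (0, 0) ((2 * (4 * x) : ℕ) : ℤ)) := by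
      rw [Finset.disjoint_left]
      intro y hy' hy
      unfold an at hy'
      rw [Finset.mem_sdiff] at hy'
      exact hy'.2 (bx_mono _ (by push_cast; omega) hy)
    have hi : Ex P2 (bx (0, 0) (R : ℤ)) (fun F => t ^ N F (0, 0) (16 * x) R *
        ind (k < N F (0, 0) x (2 * (4 * x)) + W F (0, 0) (4 * x))) =
        Ex P2 (bx (0, 0) (R : ℤ)) (fun F => t ^ N F (0, 0) (16 * x) R) *
        Pr P2 (bx (0, 0) (R : ℤ))
          (fun F => k < N F (0, 0) x (2 * (4 * x)) + W F (0, 0) (4 * x)) := by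
      refine Ex_mul_indep (p := P2) hT hb1 hd (fun F _ => ?_) (fun F _ => ?_)
      · rw [loc' h.geo (by omega) (Finset.Subset.refl _) F]
      · rw [loc' h.geo (by omega) hT2 F, wloc' h (by omega) hT3 F]
    have hcore := core h0 h1 (Z := fun F => t ^ N F (0, 0) x R)
      (X := fun F => t ^ N F (0, 0) (4 * x) R) (Y := fun F => t ^ N F (0, 0) (16 * x) R)
      (V := fun F => N F (0, 0) x (2 * (4 * x)) + W F (0, 0) (4 * x))
      (S := bx (0, 0) (R : ℤ)) k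
      (fun F => by positivity)
      (fun F => pow_le_pow_of_le_one h0.le h1 (h.geo.mono F _ _ _ _ _ (by omega) le_rfl))
      (fun F => by
        rw [← pow_add]
        refine pow_le_pow_of_le_one h0.le h1 ?_
        have := h.join F (0, 0) (4 * x) x R (by omega) (by omega) (by omega)
        omega) hi
    rw [hl t (0, 0) (4 * x) R _ (by omega) (Finset.Subset.refl _),
      hl t (0, 0) (16 * x) R _ (by omega) (Finset.Subset.refl _),
      hl t (0, 0) x R _ (by omega) (Finset.Subset.refl _)] at hcore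
    have ht := hC' x (4 * x) (2 * (4 * x)) (bx (0, 0) (R : ℤ)) hx (by omega) (by omega)
      (by omega) hb1 (bx_mono _ (by push_cast; omega)) k
    refine fin h0 hA2 ?_ (Pr_nonneg hok _ _) (G_nonneg N h0 _ _) i3 (G_nonneg N h0 _ _) hcore
    exact (mul_le_mul_of_nonneg_left ht hA.le).trans hAe
  · push Not at hc
    have e1 := hD' x R (by omega) (by omega)
    have e2 := G_le_one N h0 h1 (4 * x) R
    have e3 := G_nonneg N h0 x R
    have e4 : D * G N t x R ≤ A * G N t x R := mul_le_mul_of_nonneg_right hDA e3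
    linarith

theorem t_DOUT {N : NT} {W : WT} {K : KT} (h : Sys N W K) (hl : LocG N) (ha : AMom N) :
    DOut N := by
  intro t M h0 h1
  obtain ⟨A, hA, hA'⟩ := dout_step h hl ha h0 h1
  obtain ⟨D, hD, hD'⟩ := low h.geo ha h0 h1 (4 ^ M)
  refine ⟨A ^ M + D, by positivity, fun r' r R hr1 hrr hrR hM => ?_⟩
  have hg0 := G_nonneg N h0 r' R
  by_cases hc : 4 ^ M * r' ≤ R
  · have hit : ∀ j : ℕ, 4 ^ j * r' ≤ R → G N t (4 ^ j * r') R ≤ A ^ j * G N t r' R := by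
      intro j
      induction j with
      | zero => intro _; simp
      | succ j ih =>
        intro hjR
        have hj : 1 ≤ 4 ^ j := Nat.one_le_pow _ _ (by norm_num)
        have e0 : (4 : ℕ) ^ (j + 1) * r' = 4 * (4 ^ j * r') := by ring
        have hjr : r' ≤ 4 ^ j * r' := Nat.le_mul_of_pos_left _ hj
        rw [e0] at hjR ⊢
        set Q := 4 ^ j * r' with hQ
        have e1 := hA' (R - Q) Q R rfl (by omega) hjR
        have e2 := ih (by omega)
        calc G N t (4 * Q) R ≤ A * G N t Q R := e1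
          _ ≤ A * (A ^ j * G N t r' R) := mul_le_mul_of_nonneg_left e2 hA.le
          _ = A ^ (j + 1) * G N t r' R := by ring
    have e1 := hit M hc
    have hM' : M ≤ 4 ^ M := (Nat.lt_pow_self (by norm_num)).le
    have e2 : G N t r R ≤ G N t (4 ^ M * r') R :=
      G_le h.geo hl h0 h1 hc (hM.trans (Nat.mul_le_mul_right _ hM')) le_rfl
    nlinarith [mul_nonneg hD.le hg0]
  · push Not at hc
    have e1 := hD' r' R (by omega) (by rw [max_eq_left hr1]; exact hc.le)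
    have e2 := G_le_one N h0 h1 r R
    have e3 : 0 ≤ A ^ M * G N t r' R := by positivity
    nlinarith

end Pool.Agent.W509.NC
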